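import Pool.Agent.W603.PV.War

/-!
Lines with at most two points on the boundary, and the counting function for several divisors.
-/

set_option autoImplicit false

open FF MvPolynomial Pool.Agent.W603.LV Pool.Agent.W603.PV

namespace Pool.Agent.W603.CZ

/-- Let `X` be the closed subvariety of projective `n`-space over `F` with the homogeneous prime
ideal `p`. Over some extension field `K` of `F` there are a generic point `y` of `X` and a line
through `y` in `X` that meets the divisors `Q j = 0` in at most two points, one for `j` in `T` and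
one for `j` not in `T`: for suitable coordinates `(s : t)` on the line, the form `Q j` of degree
`q j` is `Q_j(y) (s + t) ^ q j` for `j` in `T` and `Q_j(y) s ^ q j` for the other `j`. -/
def HasPuncturedLine {F : Type} [Field F] {n : ℕ} {κ : Type}
    (p : Ideal (MvPolynomial (Fin (n + 1)) F)) (Q : κ → MvPolynomial (Fin (n + 1)) F)
    (q : κ → ℕ) : Prop :=
  ∃ (K : Type) (_ : Field K) (_ : Algebra F K) (y v : Fin (n + 1) → K) (T : Set κ),
    (∀ H ∈ p, aeval y H = 0) ∧ (∀ d H, H.IsHomogeneous d → H ∉ p → aeval y H ≠ 0) ∧
    (∃ i j, y i * v j - y j * v i ≠ 0) ∧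
    ∀ s t : K, (∀ H ∈ p, aeval (fun l => s * y l + t * v l) H = 0) ∧
      ∀ j, (j ∈ T → aeval (fun l => s * y l + t * v l) (Q j) = aeval y (Q j) * (s + t) ^ q j) ∧
        (j ∉ T → aeval (fun l => s * y l + t * v l) (Q j) = aeval y (Q j) * s ^ q j)

/-- The places of `L` at which the point `f` of projective space meets one of the divisors
`Q j = 0`, where `Q j` is a form of degree `q j`. -/
def meetsAny {k F : Type} [Field k] [Field F] {n : ℕ} {κ : Type} {L : Type} [Field L]
    [Algebra k L] [Algebra F L] (Q : κ → MvPolynomial (Fin (n + 1)) F) (q : κ → ℕ)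
    (f : Fin (n + 1) → L) : Set (Place k L) :=
  {P | ∃ j, q j * pord P f < P.ord (aeval f (Q j))}

end Pool.Agent.W603.CZ
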