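import Pool.Agent.W603.CZ.Main
import Pool.Agent.W603.CZ.Defs

/-!
Vojta's height inequality over function fields with any number of boundary divisors.
-/

set_option autoImplicit false

open FF Filter MvPolynomial Pool.Agent.W603.LV Pool.Agent.W603.PV Pool.Agent.W602.GT
  Pool.Agent.W603.GY Pool.Agent.W603.GX Pool.Agent.W603.GW Pool.Agent.W603.GR

namespace Pool.Agent.W603.CZ

variable {k F : Type} [Field k] [Field F] {n : ℕ} {ι κ : Type}

theorem meetsAny_finite [CharZero k] [Finite κ] {L : Type} [Field L] [Algebra k L] [IsFF k L]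
    [Algebra F L] (Q : κ → MvPolynomial (Fin (n + 1)) F) (q : κ → ℕ) {f : Fin (n + 1) → L}
    (hf : ∃ j, f j ≠ 0) : (meetsAny (k := k) Q q f).Finite := by
  have h : meetsAny (k := k) Q q f = ⋃ j, meets (k := k) (Q j) (q j) f := by
    ext P
    rw [Set.mem_iUnion]
    exact Iff.rfl
  rw [h]
  exact Set.finite_iUnion fun j => meets_finite (Q j) (q j) hf

/-- a line through the generic point of a component is in the component -/
theorem line_in_min {Fs : ι → MvPolynomial (Fin (n + 1)) F}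
    (hF : ∀ i, ∃ s N : ℕ, 0 < N ∧ (s - 1) ^ 2 ≤ N ∧ Pool.Agent.W603.PV.IsPowSum (Fs i) s N)
    {p : Ideal (MvPolynomial (Fin (n + 1)) F)}
    (hmin : p ∈ (Ideal.span (Set.range Fs)).minimalPrimes) {K : Type} [Field K] [Algebra F K]
    [Infinite K] {y v : Fin (n + 1) → K}
    (hgen : ∀ d H, H.IsHomogeneous d → H ∉ p → aeval y H ≠ 0)
    (hline : ∀ (c c' : K) i, aeval (fun l => c * y l + c' * v l) (Fs i) = 0) :
    ∀ H ∈ p, ∀ c c' : K, aeval (fun l => c * y l + c' * v l) H = 0 := by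
  classical
  let φ : MvPolynomial (Fin (n + 1)) F →ₐ[F] MvPolynomial (Fin 2) K :=
    aeval fun l => C (y l) * X 0 + C (v l) * X 1
  have hev : ∀ (c c' : K) (H : MvPolynomial (Fin (n + 1)) F),
      eval ![c, c'] (φ H) = aeval (fun l => c * y l + c' * v l) H := by
    intro c c' H
    induction H using MvPolynomial.induction_on with
    | C a =>
      simp only [φ, aeval_C]
      rw [MvPolynomial.algebraMap_apply, eval_C]
    | add p q hp hq => rw [map_add, map_add, map_add, hp, hq]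
    | mul_X p s hp =>
      rw [map_mul, map_mul, map_mul, hp]
      congr 1
      simp only [φ, aeval_X, map_add, map_mul, eval_C, eval_X, Matrix.cons_val_zero,
        Matrix.cons_val_one]
      ring
  have hker : (RingHom.ker φ).IsPrime := RingHom.ker_isPrime _
  have hspan : Ideal.span (Set.range Fs) ≤ RingHom.ker φ := by
    rw [Ideal.span_le]
    rintro _ ⟨i, rfl⟩
    refine RingHom.mem_ker.2 (MvPolynomial.funext fun x => ?_)
    have hx : x = ![x 0, x 1] := by
      funext i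
      fin_cases i <;> rfl
    rw [map_zero, hx, hev]
    exact hline _ _ i
  obtain ⟨p', hp', hle⟩ := Ideal.exists_minimalPrimes_le hspan
  have hhom := isHomog_war hF hp'
  have hpp : p' ≤ p := by
    intro H hH
    rw [← sum_homogeneousComponent H]
    refine sum_mem fun d _ => ?_
    by_contra hcon
    apply hgen d _ (homogeneousComponent_isHomogeneous d H) hcon
    have h1 := hle (hhom H hH d)
    have h2 := hev 1 0 (homogeneousComponent d H)
    rw [RingHom.mem_ker.1 h1, map_zero] at h2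
    simp only [one_mul, zero_mul, add_zero] at h2
    exact h2.symm
  have hpp' : p ≤ p' := hmin.2 hp'.1 hpp
  intro H hH c c'
  rw [← hev, RingHom.mem_ker.1 (hle (hpp' hH)), map_zero]

/-- **Vojta's height inequality** -/
theorem vojta_multi [Algebra k F] [IsAlgClosed k] [CharZero k] [IsFF k F] [Finite κ]
    (Fs : ι → MvPolynomial (Fin (n + 1)) F)
    (hF : ∀ i, ∃ s N : ℕ, 0 < N ∧ (s - 1) ^ 2 ≤ N ∧ Pool.Agent.W603.PV.IsPowSum (Fs i) s N)
    (Q : κ → MvPolynomial (Fin (n + 1)) F) (q : κ → ℕ)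
    (hQ : ∀ j, ∃ r : ℕ, 0 < q j ∧ r ^ 2 ≤ q j ∧ Pool.Agent.W603.PV.IsPowSum (Q j) r (q j))
    (p : Ideal (MvPolynomial (Fin (n + 1)) F)) [hpp : p.IsPrime]
    (hmin : p ∈ (Ideal.span (Set.range Fs)).minimalPrimes) (hx : ∃ j, X j ∉ p)
    (hQp : ∀ j, Q j ∉ p) (hline : ¬ HasPuncturedLine p Q q) :
    ∃ (d : ℕ) (G : MvPolynomial (Fin (n + 1)) F), G.IsHomogeneous d ∧ G ∉ p ∧
      (∀ j, Q j ∣ G) ∧ ∃ (B C : ℕ), ∀ (L : Type) [Field L] [Algebra k L] [Algebra F L]
      [IsScalarTower k F L] [FiniteDimensional F L] (f : Fin (n + 1) → L),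
      (∀ H ∈ p, aeval f H = 0) → aeval f G ≠ 0 →
        pht k f ≤ B * (canDeg k L + (meetsAny (k := k) Q q f).ncard) +
          C * Module.finrank F L := by
  classical
  have := Fintype.ofFinite κ
  by_contra hcon
  push Not at hcon
  obtain ⟨j0, hj0⟩ := hx
  have hF' := hF
  choose s N hN0 hN hps using hF
  choose c l hc hFe using hps
  choose r hq0 hr hpsq using hQ
  choose c' l' hc' hQe using hpsq
  have hQhom : ∀ j, (Q j).IsHomogeneous (q j) := by
    intro j
    rw [hQe j]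
    exact hom_powW _ _
  have hQne : ∀ j, Q j ≠ 0 := by
    intro j h0
    apply hQp j
    rw [h0]
    exact zero_mem _
  have hdeg : ∀ j, (Q j).totalDegree = q j := fun j => (hQhom j).totalDegree (hQne j)
  obtain ⟨tt, htt⟩ := IsFF.exists_transcendental (k := k) (K := F)
  obtain ⟨h0, hh0⟩ : ∃ h0 : ℕ, (h0 : ℤ) = hgt k tt :=
    ⟨(hgt k tt).toNat, Int.toNat_of_nonneg (hgt_nonneg tt)⟩
  have hone : (1 : MvPolynomial (Fin (n + 1)) F) ∉ p := fun h =>
    hpp.ne_top ((Ideal.eq_top_iff_one _).2 h)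
  have hQprod : ∏ j, Q j ∉ p := by
    rw [Ideal.IsPrime.prod_mem_iff (hp := hpp)]
    rintro ⟨j, -, hj⟩
    exact hQp j hj
  have key : ∀ i : {G : MvPolynomial (Fin (n + 1)) F // (∃ d, G.IsHomogeneous d) ∧ G ∉ p} × ℕ,
      ∃ (L : Type) (_ : Field L) (_ : Algebra k L) (_ : Algebra F L) (_ : IsScalarTower k F L)
      (_ : FiniteDimensional F L) (f : Fin (n + 1) → L), (∀ H ∈ p, aeval f H = 0) ∧
      aeval f i.1.1 ≠ 0 ∧ f j0 ≠ 0 ∧ (∀ j, aeval f (Q j) ≠ 0) ∧
      (i.2 : ℤ) * (max (canDeg k L + (meetsAny (k := k) Q q f).ncard) 0 +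
        Module.finrank F L) < pht k f := by
    rintro ⟨⟨G, ⟨d, hd⟩, hG⟩, B⟩
    obtain ⟨L, i1, i2, i3, i4, i5, f, hf, hfG, hht⟩ := hcon (d + 1 + ∑ j, q j)
      (G * X j0 * ∏ j, Q j)
      ((hd.mul (isHomogeneous_X F j0)).mul (IsHomogeneous.prod _ _ _ fun j _ => hQhom j))
      (fun h => by
        rcases hpp.mem_or_mem h with h | h
        · rcases hpp.mem_or_mem h with h | h
          · exact hG h
          · exact hj0 h
        · exact hQprod h)
      (fun j => Dvd.dvd.mul_left (Finset.dvd_prod_of_mem _ (Finset.mem_univ j)) _)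
      B (B * (2 * h0 + 1))
    have hL : IsFF k L := isFF_of_finite (F := F)
    rw [map_mul, map_mul, map_prod, aeval_X] at hfG
    refine ⟨L, i1, i2, i3, i4, i5, f, hf, left_ne_zero_of_mul (left_ne_zero_of_mul hfG),
      right_ne_zero_of_mul (left_ne_zero_of_mul hfG), fun j =>
        Finset.prod_ne_zero_iff.1 (right_ne_zero_of_mul hfG) j (Finset.mem_univ j),
      lt_of_le_of_lt ?_ hht⟩
    have h1 := canDeg_ge (k := k) (K := L) (t := algebraMap F L tt)
      ((transcendental_algebraMap_iff (algebraMap F L).injective).2 htt)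
    rw [hgt_algebraMap (k := k), ← hh0] at h1
    have h2 : (0 : ℤ) ≤ (meetsAny (k := k) Q q f).ncard := by positivity
    have h3 : max (canDeg k L + ((meetsAny (k := k) Q q f).ncard : ℤ)) 0 ≤
        canDeg k L + (meetsAny (k := k) Q q f).ncard + 2 * h0 * Module.finrank F L := by
      apply max_le
      · have : (0 : ℤ) ≤ 2 * h0 * Module.finrank F L := by positivity
        linarith
      · linarith
    have h4 : (0 : ℤ) ≤ B := by positivity
    have h5 := mul_le_mul_of_nonneg_left (add_le_add_left h3 (Module.finrank F L : ℤ)) h4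
    refine h5.trans (le_of_eq ?_)
    push_cast
    ring
  choose L i1 i2 i3 i4 i5 f hfp hfG hfj hfQ hht using key
  have i6 : ∀ i, IsFF k (L i) := fun i => isFF_of_finite (F := F)
  -- the ultrafilter
  let Idx := {G : MvPolynomial (Fin (n + 1)) F // (∃ d, G.IsHomogeneous d) ∧ G ∉ p} × ℕ
  let U : Idx → Set Idx := fun g => {i | g.1.1 ∣ i.1.1 ∧ g.2 ≤ i.2}
  have hdir : Directed (· ≥ ·) fun g : Idx => (𝓟 (U g) : Filter Idx) := by
    rintro ⟨⟨G, ⟨d, hd⟩, hG⟩, B⟩ ⟨⟨G', ⟨d', hd'⟩, hG'⟩, B'⟩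
    refine ⟨(⟨G * G', ⟨d + d', hd.mul hd'⟩, fun h => ?_⟩, max B B'), ?_, ?_⟩
    · rcases hpp.mem_or_mem h with h | h
      · exact hG h
      · exact hG' h
    · refine principal_mono.2 fun i hi => ?_
      exact ⟨(dvd_mul_right G G').trans hi.1, (le_max_left B B').trans hi.2⟩
    · refine principal_mono.2 fun i hi => ?_
      exact ⟨(dvd_mul_left G' G).trans hi.1, (le_max_right B B').trans hi.2⟩
  let one : {G : MvPolynomial (Fin (n + 1)) F // (∃ d, G.IsHomogeneous d) ∧ G ∉ p} :=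
    ⟨1, ⟨0, isHomogeneous_one _ _⟩, hone⟩
  have hneI : Nonempty Idx := ⟨(one, 0)⟩
  have hne : NeBot (⨅ g : Idx, (𝓟 (U g) : Filter Idx)) := iInf_neBot_of_directed hdir
    fun g => principal_neBot_iff.2 ⟨g, dvd_rfl, le_rfl⟩
  obtain ⟨𝒰, h𝒰⟩ : ∃ 𝒰 : Ultrafilter Idx, (𝒰 : Filter Idx) ≤ ⨅ g : Idx, 𝓟 (U g) :=
    ⟨Ultrafilter.of _, Ultrafilter.of_le _⟩
  have hU : ∀ g, ∀ᶠ i in (𝒰 : Filter Idx), i ∈ U g := fun g =>
    h𝒰 (mem_iInf_of_mem g (mem_principal_self _))
  -- the small field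
  obtain ⟨χ, hχd⟩ : ∃ χ : Idx → ℤ, χ = fun i =>
    max (canDeg k (L i) + (meetsAny (k := k) Q q (f i)).ncard) 0 + Module.finrank F (L i) :=
    ⟨_, rfl⟩
  have hχ : ∀ i, 0 ≤ χ i := fun i => by
    rw [hχd]
    exact add_nonneg (le_max_right _ _) (by positivity)
  have hχ1 : ∀ i, (Module.finrank F (L i) : ℤ) ≤ χ i := fun i => by
    rw [hχd]
    exact le_add_of_nonneg_left (le_max_right _ _)
  have hχ2 : ∀ i, max (canDeg k (L i) + (meetsAny (k := k) Q q (f i)).ncard) 0 ≤ χ i :=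
    fun i => by
      rw [hχd]
      exact le_add_of_nonneg_right (by positivity)
  have hFc : ∀ c : F, ∃ B : ℕ, ∀ i, hgt k (algebraMap F (L i) c) ≤ B * χ i := by
    intro c
    refine ⟨(hgt k c).toNat, fun i => ?_⟩
    rw [hgt_algebraMap (k := k), Int.toNat_of_nonneg (hgt_nonneg c), mul_comm]
    exact mul_le_mul_of_nonneg_left (hχ1 i) (hgt_nonneg c)
  obtain ⟨E, hE⟩ : ∃ E : IntermediateField F (UL 𝒰 L), IsSmall 𝒰 k χ E :=
    ⟨small 𝒰 χ hχ hFc, hχ, fun a => mem_small 𝒰⟩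
  have hS0 : ∀ᶠ i in (𝒰 : Filter Idx), max (canDeg k (L i) +
      ((meetsAny_finite (k := k) Q q ⟨j0, hfj i⟩).toFinset.card : ℤ)) 0 ≤ (1 : ℕ) * χ i := by
    refine Eventually.of_forall fun i => ?_
    rw [← Set.ncard_eq_toFinset_card _ (meetsAny_finite (k := k) Q q ⟨j0, hfj i⟩), Nat.cast_one,
      one_mul]
    exact hχ2 i
  obtain ⟨S, B1, hS, hB1⟩ := more_places
    (fun i => (meetsAny_finite (k := k) Q q ⟨j0, hfj i⟩).toFinset) hE hS0
    (J := Σ j : κ, {α // α ∈ (Q j).support})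
    (fun a i => algebraMap F (L i) ((Q a.1).coeff a.2.1))
    (fun a => by rw [um_alg]; exact E.algebraMap_mem _)
  have hQS : ∀ j i, ∀ P ∉ S i, P.ord (val (f i) (Q j)) = q j * pord P (f i) := by
    intro j i P hP
    obtain ⟨h1, h2⟩ := hS i P hP
    rw [Set.Finite.mem_toFinset] at h1
    apply le_antisymm
    · by_contra h3
      exact h1 ⟨j, not_le.1 h3⟩
    · have h3 := ge_form P (f i) (hQhom j) (fun α hα =>
        Or.inr (h2 ⟨j, α, hα⟩).ge)
      exact h3.resolve_left (hfQ i j)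
  -- the generic point
  have hval : ∀ H : MvPolynomial (Fin (n + 1)) F,
      um 𝒰 (fun i => val (f i) H) = val (fun t => um 𝒰 (fun i => f i t)) H :=
    fun H => um_val H fun t i => f i t
  have hgen0 : ∀ H ∈ p, aeval (fun t => um 𝒰 (fun i => f i t)) H = 0 := by
    intro H hH
    have h1 := hval H
    change _ = aeval _ H at h1
    rw [← h1, um_zero_iff]
    exact Eventually.of_forall fun i => hfp i H hH
  have hgen1 : ∀ d H, H.IsHomogeneous d → H ∉ p →
      aeval (fun t => um 𝒰 (fun i => f i t)) H ≠ 0 := by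
    intro d H hd hH
    have h1 := hval H
    change _ = aeval _ H at h1
    rw [← h1, um_ne_iff]
    filter_upwards [hU (⟨H, ⟨d, hd⟩, hH⟩, 0)] with i hi
    obtain ⟨G', hG'⟩ := hi.1
    have h2 := hfG i
    change aeval (f i) i.1.1 ≠ 0 at h2
    rw [hG', map_mul] at h2
    exact left_ne_zero_of_mul h2
  have hP := punct_w S hE hB1 c hc l hN0 hN hFe c' hc' l' hq0 hr hQe f
    (fun i => ⟨j0, hfj i⟩) (fun e => hgen0 _ (hmin.1.2 (Ideal.subset_span ⟨e, rfl⟩)))
    (fun j => hgen1 _ _ (hQhom j) (hQp j)) hQS (by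
      intro B
      filter_upwards [hU (one, B)] with i hi
      have h1 : (B : ℤ) ≤ i.2 := by exact_mod_cast hi.2
      refine lt_of_le_of_lt (mul_le_mul_of_nonneg_right h1 (hχ i)) ?_
      rw [hχd]
      exact hht i)
  obtain ⟨v, T, h1, h2, h3, h4⟩ := hP
  have hcF : CharZero F := charZero_of_injective_algebraMap (algebraMap k F).injective
  have hcU : CharZero (UL 𝒰 L) :=
    charZero_of_injective_algebraMap (algebraMap F (UL 𝒰 L)).injective
  have hinf : Infinite (UL 𝒰 L) := inferInstance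
  apply hline
  refine ⟨UL 𝒰 L, inferInstance, inferInstance, _, v, T, hgen0, hgen1, h1, fun a b =>
    ⟨fun H hH => line_in_min hF' hmin hgen1 h2 H hH a b, fun j => ⟨fun hj => ?_, fun hj => ?_⟩⟩⟩
  · have h5 := h3 a b j hj
    rw [hdeg] at h5
    exact h5
  · have h5 := h4 a b j hj
    rw [hdeg] at h5
    exact h5

end Pool.Agent.W603.CZ
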