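import Pool.Agent.W603.CZ.Ultra

/-!
Unit equations over an ultraproduct of function fields.
-/

set_option autoImplicit false

open FF Filter Pool.Agent.W603.LV Pool.Agent.W603.PV Pool.Agent.W602.GT Pool.Agent.W603.GY

namespace Pool.Agent.W603.CZ

variable {I : Type} {𝒰 : Ultrafilter I} {k F : Type} [Field k] [Field F] {L : I → Type}
  [∀ i, Field (L i)] [∀ i, Algebra k (L i)] [∀ i, Algebra F (L i)] [IsAlgClosed k] [CharZero k]
  [∀ i, IsFF k (L i)]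

/-- **Blocks** over an ultraproduct. -/
theorem ublocks {J : Type} [Fintype J] (S : ∀ i, Finset (Place k (L i))) {χ : I → ℤ}
    {E : IntermediateField F (UL 𝒰 L)} (hE : IsSmall 𝒰 k χ E) {B0 : ℕ}
    (hS : ∀ᶠ i in (𝒰 : Filter I), max (canDeg k (L i) + (S i).card) 0 ≤ B0 * χ i)
    {N s : ℕ} (hs : Fintype.card J ≤ s) (hN0 : 0 < N) (hN : (s - 1) ^ 2 ≤ N)
    (g : J → ∀ i, L i) (hg0 : ∀ j, um 𝒰 (g j) ≠ 0) (hrel : ∑ j, um 𝒰 (g j) = 0)
    (hdvd : ∀ᶠ i in (𝒰 : Filter I), ∀ P ∉ S i, ∀ a b,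
      (N : ℤ) ∣ P.ord (g a i) - P.ord (g b i)) (j0 : J) (A : Finset J)
    (hA : ∀ j, j ∈ A ↔ um 𝒰 (g j0) / um 𝒰 (g j) ∈ E) :
    ∑ j ∈ A, um 𝒰 (g j) = 0 := by
  classical
  have h0 : ∀ᶠ i in (𝒰 : Filter I), ∀ j, g j i ≠ 0 :=
    eventually_all.2 fun j => um_ne_iff.1 (hg0 j)
  have h1 : ∀ᶠ i in (𝒰 : Filter I), ∑ j, g j i = 0 :=
    um_zero_iff.1 (by rw [um_sum]; exact hrel)
  have h2 : ∀ i, ∃ R : J → J → Prop, ((∀ j, g j i ≠ 0) → (∑ j, g j i = 0) →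
      (∀ P ∉ S i, ∀ a b, (N : ℤ) ∣ P.ord (g a i) - P.ord (g b i)) →
      Equivalence R ∧
      (∀ a b, R a b → hgt k (g a i / g b i) ≤
        s * (N * tri s * max (canDeg k (L i) + (S i).card) 0)) ∧
      ∀ (j0 : J) (A : Finset J), (∀ j, j ∈ A ↔ R j0 j) → ∑ j ∈ A, g j i = 0) := by
    intro i
    by_cases h : (∀ j, g j i ≠ 0) ∧ (∑ j, g j i = 0) ∧
      (∀ P ∉ S i, ∀ a b, (N : ℤ) ∣ P.ord (g a i) - P.ord (g b i))
    · obtain ⟨h3, h4, h5⟩ := h
      obtain ⟨R, hR⟩ := blocks (S i) hs hN0 hN (fun j => g j i) h3 h4 h5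
      exact ⟨R, fun _ _ _ => hR⟩
    · exact ⟨fun _ _ => True, fun a b c => absurd ⟨a, b, c⟩ h⟩
  choose R hR using h2
  obtain ⟨R0, hR0⟩ := Ultrafilter.eq_pure_of_finite (𝒰.map R)
  have h3 : ∀ᶠ i in (𝒰 : Filter I), R i = R0 := by
    have h4 : ({R0} : Set (J → J → Prop)) ∈ 𝒰.map R := by
      rw [hR0]
      exact Ultrafilter.mem_pure.2 rfl
    exact h4
  have hall := (((h0.and h1).and hdvd).and h3).and hS
  have h4 : Equivalence R0 := by
    obtain ⟨i, (⟨⟨⟨h5, h6⟩, h7⟩, h8⟩ : ((_ ∧ _) ∧ _) ∧ _), -⟩ := hall.exists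
    rw [← h8]
    exact (hR i h5 h6 h7).1
  have h5 : ∀ a b, R0 a b → um 𝒰 (g a) / um 𝒰 (g b) ∈ E := by
    intro a b hab
    rw [← um_div, hE.2]
    refine ⟨s * (N * (tri s).toNat * B0), ?_⟩
    filter_upwards [hall] with i hi
    obtain ⟨⟨⟨⟨h5, h6⟩, h7⟩, h8⟩, h9⟩ := hi
    refine ((hR i h5 h6 h7).2.1 a b (by rw [h8]; exact hab)).trans ?_
    have h10 : (0 : ℤ) ≤ s * (N * tri s) :=
      mul_nonneg (by positivity) (mul_nonneg (by positivity) (tri_nonneg s))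
    have h11 := mul_le_mul_of_nonneg_left h9 h10
    refine le_trans (le_of_eq ?_) (h11.trans (le_of_eq ?_))
    · ring
    · push_cast
      rw [Int.toNat_of_nonneg (tri_nonneg s)]
      ring
  have h6 : ∀ (j0 : J) (A : Finset J), (∀ j, j ∈ A ↔ R0 j0 j) → ∑ j ∈ A, um 𝒰 (g j) = 0 := by
    intro j0 A hA
    rw [← um_sum, um_zero_iff]
    filter_upwards [hall] with i hi
    obtain ⟨⟨⟨⟨h5, h6⟩, h7⟩, h8⟩, h9⟩ := hi
    exact (hR i h5 h6 h7).2.2 j0 A fun j => by rw [h8]; exact hA j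
  have h7 := weighted_sum R0 h4 (fun j => um 𝒰 (g j))
    (fun j => if j ∈ A then (1 : UL 𝒰 L) else 0) (by
    intro a b hab
    have h8 := h5 a b hab
    have h9 : a ∈ A ↔ b ∈ A := by
      rw [hA, hA]
      constructor
      · intro h
        exact mdiv_trans (hg0 a) h h8
      · intro h
        exact mdiv_trans (hg0 b) h (mdiv_symm h8)
    simp only [h9]) h6
  simp only [ite_mul, one_mul, zero_mul] at h7
  rw [← h7, Finset.sum_ite_mem, Finset.univ_inter]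

/-- **Blocks** over an ultraproduct. -/
theorem ublocks0 {J : Type} [Fintype J] (S : ∀ i, Finset (Place k (L i))) {χ : I → ℤ}
    {E : IntermediateField F (UL 𝒰 L)} (hE : IsSmall 𝒰 k χ E) {B0 : ℕ}
    (hS : ∀ᶠ i in (𝒰 : Filter I), max (canDeg k (L i) + (S i).card) 0 ≤ B0 * χ i)
    {N s : ℕ} (hs : Fintype.card J ≤ s) (hN0 : 0 < N) (hN : (s - 1) ^ 2 ≤ N)
    (g : J → ∀ i, L i) (hrel : ∑ j, um 𝒰 (g j) = 0)
    (hdvd : ∀ᶠ i in (𝒰 : Filter I), ∀ P ∉ S i, ∀ a b, g a i ≠ 0 → g b i ≠ 0 →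
      (N : ℤ) ∣ P.ord (g a i) - P.ord (g b i)) (j0 : J) (hj0 : um 𝒰 (g j0) ≠ 0) (A : Finset J)
    (hA : ∀ j, j ∈ A ↔ um 𝒰 (g j) ≠ 0 ∧ um 𝒰 (g j0) / um 𝒰 (g j) ∈ E) :
    ∑ j ∈ A, um 𝒰 (g j) = 0 := by
  classical
  have h1 : ∑ j : {j // um 𝒰 (g j) ≠ 0}, um 𝒰 (g j.1) = 0 := by
    rw [← Finset.sum_subtype (Finset.univ.filter fun j => um 𝒰 (g j) ≠ 0) (by simp)
      (fun j => um 𝒰 (g j)), Finset.sum_filter_ne_zero]
    exact hrel
  have h2 : ∀ᶠ i in (𝒰 : Filter I), ∀ j : {j // um 𝒰 (g j) ≠ 0}, g j.1 i ≠ 0 :=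
    eventually_all.2 fun j => um_ne_iff.1 j.2
  have h3 := ublocks (J := {j // um 𝒰 (g j) ≠ 0}) S hE hS (s := s)
    ((Fintype.card_subtype_le _).trans hs) hN0 hN (fun j => g j.1) (fun j => j.2) h1 (by
      filter_upwards [h2, hdvd] with i h3 h4 P hP a b
      exact h4 P hP a.1 b.1 (h3 a) (h3 b)) ⟨j0, hj0⟩ (A.subtype fun j => um 𝒰 (g j) ≠ 0) (by
      rintro ⟨j, hj⟩
      rw [Finset.mem_subtype, hA]
      exact ⟨fun h => h.2, fun h => ⟨hj, h⟩⟩)
  rw [← h3, Finset.sum_subtype_of_mem (fun j => um 𝒰 (g j)) fun x hx => ((hA x).1 hx).1]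

/-- more places -/
theorem more_places (S : ∀ i, Finset (Place k (L i))) {χ : I → ℤ}
    {E : IntermediateField F (UL 𝒰 L)} (hE : IsSmall 𝒰 k χ E) {B0 : ℕ}
    (hS : ∀ᶠ i in (𝒰 : Filter I), max (canDeg k (L i) + (S i).card) 0 ≤ B0 * χ i)
    {J : Type} [Fintype J] (a : J → ∀ i, L i) (ha : ∀ j, um 𝒰 (a j) ∈ E) :
    ∃ (S' : ∀ i, Finset (Place k (L i))) (B1 : ℕ), (∀ i, ∀ P ∉ S' i, P ∉ S i ∧
      ∀ j, P.ord (a j i) = 0) ∧
      ∀ᶠ i in (𝒰 : Filter I), max (canDeg k (L i) + (S' i).card) 0 ≤ B1 * χ i := by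
  classical
  choose T hT hTc using fun i => CY.card_supp (k := k) (K := L i) (fun j => a j i)
  choose B hB using fun j => (hE.2 (a j)).1 (ha j)
  have hχ := hE.1
  refine ⟨fun i => S i ∪ T i, B0 + ∑ j, 2 * B j, fun i P hP => ?_, ?_⟩
  · rw [Finset.mem_union, not_or] at hP
    exact ⟨hP.1, hT i P hP.2⟩
  · filter_upwards [hS, eventually_all.2 hB] with i h1 h2
    have h3 : ((S i ∪ T i).card : ℤ) ≤ (S i).card + (T i).card := by
      exact_mod_cast Finset.card_union_le _ _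
    have h4 : ∑ j, 2 * hgt k (a j i) ≤ ∑ j, 2 * (B j * χ i) :=
      Finset.sum_le_sum fun j _ => mul_le_mul_of_nonneg_left (h2 j) (by norm_num)
    have h5 : ((B0 + ∑ j, 2 * B j : ℕ) : ℤ) * χ i = B0 * χ i + ∑ j, 2 * (B j * χ i) := by
      push_cast
      rw [add_mul, Finset.sum_mul]
      congr 1
      exact Finset.sum_congr rfl fun j _ => by ring
    have h6 := hTc i
    have h7 : (0 : ℤ) ≤ ∑ j, 2 * (B j * χ i) := Finset.sum_nonneg fun j _ =>
      mul_nonneg (by norm_num) (mul_nonneg (by positivity) (hχ i))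
    have h8 := le_max_left (canDeg k (L i) + (S i).card) 0
    have h9 := le_max_right (canDeg k (L i) + (S i).card) 0
    rw [h5]
    apply max_le <;> linarith

/-- **Independence** of the quasi-units. -/
theorem uindep (S : ∀ i, Finset (Place k (L i))) {χ : I → ℤ}
    {E : IntermediateField F (UL 𝒰 L)} (hE : IsSmall 𝒰 k χ E) {B0 : ℕ}
    (hS : ∀ᶠ i in (𝒰 : Filter I), max (canDeg k (L i) + (S i).card) 0 ≤ B0 * χ i)
    {J : Type} [Finite J] (z : J → ∀ i, L i) (z0 : ∀ i, L i) (hz : ∀ j, um 𝒰 (z j) ≠ 0)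
    (hz0 : um 𝒰 z0 ≠ 0)
    (hu : ∀ᶠ i in (𝒰 : Filter I), ∀ P ∉ S i, P.ord (z0 i) = 0 ∧
      ∀ j, P.ord (z j i) = 0)
    (hzz : ∀ j, um 𝒰 z0 / um 𝒰 (z j) ∉ E) :
    um 𝒰 z0 ∉ Submodule.span E (Set.range fun j => um 𝒰 (z j)) := by
  classical
  have := Fintype.ofFinite J
  intro hmem
  rw [Submodule.mem_span_range_iff_exists_fun] at hmem
  obtain ⟨c, hc⟩ := hmem
  choose a ha using fun j => um_surj 𝒰 (c j : UL 𝒰 L)
  obtain ⟨S', B1, hS', hB1⟩ := more_places S hE hS a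
    (fun j => by rw [ha]; exact (c j).2)
  let g : Option J → ∀ i, L i := fun x => x.elim (fun i => -z0 i) fun j => fun i => a j i * z j i
  have hg0 : um 𝒰 (g none) = -um 𝒰 z0 := um_neg 𝒰 z0
  have hg1 : ∀ j, um 𝒰 (g (some j)) = (c j : UL 𝒰 L) * um 𝒰 (z j) := by
    intro j
    rw [← ha]
    exact um_mul 𝒰 (a j) (z j)
  have h1 := ublocks0 S' hE hB1 (J := Option J) (s := Fintype.card J + 1)
    (N := Fintype.card J ^ 2 + 1) (by rw [Fintype.card_option]) (Nat.succ_pos _)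
    (by rw [Nat.add_sub_cancel]; exact Nat.le_succ _) g (by
      rw [Fintype.sum_option, hg0]
      simp only [hg1]
      rw [← hc]
      simp only [IntermediateField.smul_def, smul_eq_mul]
      ring) (by
      filter_upwards [hu] with i h2 P hP x y hx hy
      obtain ⟨h3, h4⟩ := hS' i P hP
      obtain ⟨h5, h6⟩ := h2 P h3
      have key : ∀ x, g x i ≠ 0 → P.ord (g x i) = 0 := by
        rintro (_ | j) hx
        · change P.ord (-z0 i) = 0
          rw [P.ord_neg, h5]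
        · change P.ord (a j i * z j i) = 0
          have hx' : a j i * z j i ≠ 0 := hx
          rw [P.ord_mul (left_ne_zero_of_mul hx') (right_ne_zero_of_mul hx'), h4, h6, add_zero]
      rw [key x hx, key y hy, sub_zero]
      exact dvd_zero _) none (by rw [hg0]; exact neg_ne_zero.2 hz0) {none} (by
      rintro (_ | j)
      · simp only [Finset.mem_singleton, true_iff]
        rw [hg0]
        exact ⟨neg_ne_zero.2 hz0, mdiv_self (neg_ne_zero.2 hz0)⟩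
      · simp only [Finset.mem_singleton, reduceCtorEq, false_iff, not_and]
        rw [hg0, hg1]
        intro h2 h3
        apply hzz j
        have h4 : (c j : UL 𝒰 L) ≠ 0 := left_ne_zero_of_mul h2
        have h5 : um 𝒰 z0 / um 𝒰 (z j) =
            -((c j : UL 𝒰 L) * (-um 𝒰 z0 / ((c j : UL 𝒰 L) * um 𝒰 (z j)))) := by
          have := hz j
          field_simp
        rw [h5]
        exact neg_mem (mul_mem (c j).2 h3))
  rw [Finset.sum_singleton, hg0, neg_eq_zero] at h1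
  exact hz0 h1

end Pool.Agent.W603.CZ
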