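import Pool.Agent.W603.CZ.Ultra
import Pool.Agent.W603.GY.Labels

/-!
Linear spaces from a partition of the linear forms, for weighted sums of powers.
-/

set_option autoImplicit false

open FF MvPolynomial Pool.Agent.W603.LV Pool.Agent.W603.GR Pool.Agent.W603.GW
  Pool.Agent.W602.GT Pool.Agent.W603.GX Pool.Agent.W603.GY

namespace Pool.Agent.W603.CZ

variable {k : Type} [Field k] {n : ℕ} {ι κ : Type}

theorem val_powW {r d : ℕ} (c : Fin r → k) (l : Fin r → Fin (n + 1) → k) {M : Type} [Field M]
    [Algebra k M] (x : Fin (n + 1) → M) :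
    val x (∑ j, C (c j) * (∑ i, C (l j i) * X i) ^ d) =
      ∑ j, algebraMap k M (c j) * lin (l j) x ^ d := by
  unfold val
  rw [map_sum]
  refine Finset.sum_congr rfl fun j _ => ?_
  rw [map_mul, aeval_C, map_pow, map_sum]
  congr 2
  unfold lin
  refine Finset.sum_congr rfl fun i _ => ?_
  rw [map_mul, aeval_C, aeval_X]

theorem hom_powW {r d : ℕ} (c : Fin r → k) (l : Fin r → Fin (n + 1) → k) :
    (∑ j, C (c j) * (∑ i, C (l j i) * X i) ^ d : MvPolynomial (Fin (n + 1)) k).IsHomogeneous
      d := by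
  apply IsHomogeneous.sum
  intro j _
  have h1 : (∑ i, C (l j i) * X i : MvPolynomial (Fin (n + 1)) k).IsHomogeneous 1 := by
    apply IsHomogeneous.sum
    intro i _
    have := (isHomogeneous_C (Fin (n + 1)) (l j i)).mul (isHomogeneous_X k i)
    simpa using this
  have h2 := h1.pow d
  have h3 := (isHomogeneous_C (Fin (n + 1)) (c j)).mul h2
  simpa using h3

/-- a class of proportional linear forms -/
theorem sum_classW {K : Type} [Field K] [Algebra k K] {M : Type} [Field M] [Algebra k M]
    [Algebra K M] [IsScalarTower k K M] {y : Fin (n + 1) → K}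
    {x : Fin (n + 1) → M} {A : Type} (c : A → k) (l : A → Fin (n + 1) → k) (B : Finset A) {d : ℕ}
    (hne : ∀ a ∈ B, lin (l a) y ≠ 0) {l0 : Fin (n + 1) → k} (hl0 : lin l0 y ≠ 0)
    (hp : ∀ a ∈ B, lin (l a) x = algebraMap K M (lin (l a) y / lin l0 y) * lin l0 x) :
    ∑ a ∈ B, algebraMap k M (c a) * lin (l a) x ^ d =
      (lin l0 x / algebraMap K M (lin l0 y)) ^ d *
        algebraMap K M (∑ a ∈ B, algebraMap k K (c a) * lin (l a) y ^ d) := by
  rw [map_sum, Finset.mul_sum]
  refine Finset.sum_congr rfl fun a ha => ?_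
  have h2 : (algebraMap K M (lin (l a) y) / algebraMap K M (lin l0 y) * lin l0 x) ^ d =
      (lin l0 x / algebraMap K M (lin l0 y)) ^ d * algebraMap K M (lin (l a) y) ^ d := by
    rw [← mul_pow]
    congr 1
    ring
  rw [hp a ha, map_div₀, h2, map_mul, map_pow, ← IsScalarTower.algebraMap_apply k K M]
  ring

/-- **Linear spaces.** -/
theorem good_ofW {K : Type} [Field K] [Algebra k K] {y : Fin (n + 1) → K}
    {F : ι → MvPolynomial (Fin (n + 1)) k} {Q : κ → MvPolynomial (Fin (n + 1)) k}
    {r d : ι → ℕ} (w : ∀ i, Fin (r i) → k) (l : ∀ i, Fin (r i) → Fin (n + 1) → k)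
    (hd : ∀ i, 0 < d i)
    (hF : ∀ i, F i = ∑ a, C (w i a) * (∑ t, C (l i a t) * X t) ^ d i)
    {r' d' : κ → ℕ} (w' : ∀ j, Fin (r' j) → k) (l' : ∀ j, Fin (r' j) → Fin (n + 1) → k)
    (hd' : ∀ j, 0 < d' j)
    (hQ : ∀ j, Q j = ∑ a, C (w' j a) * (∑ t, C (l' j a t) * X t) ^ d' j)
    (hoff : ∀ j, val y (Q j) ≠ 0)
    {Λ : Type} (s : (Fin (n + 1) → k) → Λ) (lam : κ → Λ)
    (hclsF : ∀ i (b : Λ) (B : Finset (Fin (r i))),
      (∀ a, a ∈ B ↔ lin (l i a) y ≠ 0 ∧ s (l i a) = b) →
        ∑ a ∈ B, algebraMap k K (w i a) * lin (l i a) y ^ d i = 0)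
    (hclsQ : ∀ j (b : Λ) (B : Finset (Fin (r' j))), b ≠ lam j →
      (∀ a, a ∈ B ↔ lin (l' j a) y ≠ 0 ∧ s (l' j a) = b) →
        ∑ a ∈ B, algebraMap k K (w' j a) * lin (l' j a) y ^ d' j = 0)
    (hclsQ' : ∀ j (B : Finset (Fin (r' j))),
      (∀ a, a ∈ B ↔ lin (l' j a) y ≠ 0 ∧ s (l' j a) = lam j) →
        ∑ a ∈ B, algebraMap k K (w' j a) * lin (l' j a) y ^ d' j = val y (Q j))
    (Pr : Set ((Fin (n + 1) → k) × (Fin (n + 1) → k)))
    (hPr : ∀ p ∈ Pr, lin p.1 y ≠ 0 ∧ lin p.2 y ≠ 0)
    (hPr' : ∀ l l' : Fin (n + 1) → k, lin l y ≠ 0 → lin l' y ≠ 0 → s l = s l' → (l, l') ∈ Pr) :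
    ∃ lq : κ → Fin (n + 1) → k, Good F Q y Pr lq ∧ ∀ j, s (lq j) = lam j ∧
      ∃ b, lq j = l' j b := by
  classical
  have hQne : ∀ j, Q j ≠ 0 := by
    intro j h0
    apply hoff j
    rw [h0]
    unfold Pool.Agent.W602.GT.val
    rw [map_zero]
  have hdeg : ∀ j, (Q j).totalDegree = d' j := by
    intro j
    have h1 := hom_powW (d := d' j) (w' j) (l' j)
    rw [← hQ j] at h1
    exact h1.totalDegree (hQne j)
  have hlq : ∀ j, ∃ b : Fin (r' j), lin (l' j b) y ≠ 0 ∧ s (l' j b) = lam j := by
    intro j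
    by_contra hcon
    push Not at hcon
    apply hoff j
    rw [← hclsQ' j ∅ fun a => by
      simp only [Finset.notMem_empty, false_iff, not_and]
      exact hcon a, Finset.sum_empty]
  choose bq hbq hbq' using hlq
  -- the sums over the classes
  have key : ∀ {r d : ℕ} (W : Fin r → k) (L : Fin r → Fin (n + 1) → k) (_ : 0 < d) {M : Type}
      [Field M] [Algebra k M] [Algebra K M] [IsScalarTower k K M] (x : Fin (n + 1) → M),
      InV Pr y x → ∀ (g : Λ → K),
      (∀ b (B : Finset (Fin r)), (∀ a, a ∈ B ↔ lin (L a) y ≠ 0 ∧ s (L a) = b) →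
        ∑ a ∈ B, algebraMap k K (W a) * lin (L a) y ^ d = g b) → ∀ (b : Λ) (B : Finset (Fin r)),
        (∀ a, a ∈ B ↔ lin (L a) y ≠ 0 ∧ s (L a) = b) →
        ∀ l0, lin l0 y ≠ 0 → s l0 = b → ∑ a ∈ B, algebraMap k M (W a) * lin (L a) x ^ d =
          (lin l0 x / algebraMap K M (lin l0 y)) ^ d * algebraMap K M (g b) := by
    intro r d W L hd0 M _ _ _ _ x hx g hg b B hB l0 hl0 hl0'
    rw [← hg b B hB]
    refine sum_classW W L B (fun a ha => ((hB a).1 ha).1) hl0 fun a ha => ?_
    obtain ⟨h1, h2⟩ := (hB a).1 ha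
    exact hx.2 (L a, l0) (hPr' _ _ h1 hl0 (by rw [h2, hl0']))
  refine ⟨fun j => l' j (bq j), ⟨hPr, ?_, hbq, ?_⟩, fun j => ⟨hbq' j, bq j, rfl⟩⟩
  · intro M _ _ _ _ x hx i
    rw [hF i, val_powW]
    refine sum_labels (fun a => if lin (l i a) y ≠ 0 then some (s (l i a)) else none) _ ?_
    intro lam B hB
    cases lam with
    | none =>
      refine Finset.sum_eq_zero fun a ha => ?_
      have h1 := (hB a).1 ha
      by_cases h2 : lin (l i a) y ≠ 0
      · simp [h2] at h1
      · push Not at h2
        rw [hx.1 _ h2, zero_pow (hd i).ne', mul_zero]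
    | some b =>
      have hB' : ∀ a, a ∈ B ↔ lin (l i a) y ≠ 0 ∧ s (l i a) = b := by
        intro a
        rw [hB]
        by_cases h2 : lin (l i a) y ≠ 0
        · simp [h2]
        · simp [h2]
      by_cases hne : B.Nonempty
      · obtain ⟨a0, ha0⟩ := hne
        obtain ⟨h1, h2⟩ := (hB' a0).1 ha0
        rw [key (w i) (l i) (hd i) x hx (fun _ => 0) (fun b B hB => hclsF i b B hB) b B hB' _ h1
          h2, map_zero, mul_zero]
      · rw [Finset.not_nonempty_iff_eq_empty] at hne
        rw [hne, Finset.sum_empty]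
  · intro M _ _ _ _ x hx j
    rw [hdeg]
    have h0 : val x (Q j) = ∑ a, algebraMap k M (w' j a) * lin (l' j a) x ^ d' j := by
      conv_lhs => rw [hQ j]
      exact val_powW _ _ _
    rw [h0]
    have hb := hbq j
    have hb' : algebraMap K M (lin (l' j (bq j)) y) ≠ 0 := by rw [Ne, map_eq_zero]; exact hb
    have h3 : algebraMap K M (val y (Q j) / lin (l' j (bq j)) y ^ d' j) *
        lin (l' j (bq j)) x ^ d' j = (lin (l' j (bq j)) x /
          algebraMap K M (lin (l' j (bq j)) y)) ^ d' j * algebraMap K M (val y (Q j)) := by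
      rw [map_div₀, map_pow, div_pow]
      field_simp
    rw [h3, ← sub_eq_zero]
    set c := (lin (l' j (bq j)) x / algebraMap K M (lin (l' j (bq j)) y)) ^ d' j *
      algebraMap K M (val y (Q j)) with hc
    have hg : ∀ b (B : Finset (Fin (r' j))), (∀ a, a ∈ B ↔ lin (l' j a) y ≠ 0 ∧ s (l' j a) = b) →
        ∑ a ∈ B, algebraMap k K (w' j a) * lin (l' j a) y ^ d' j =
          if b = lam j then val y (Q j) else 0 := by
      intro b B hB
      by_cases hbl : b = lam j
      · subst hbl
        rw [if_pos rfl]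
        exact hclsQ' j B hB
      · rw [if_neg hbl]
        exact hclsQ j b B hbl hB
    have h4 : ∑ a : Option (Fin (r' j)), (match a with
        | none => -c
        | some a => algebraMap k M (w' j a) * lin (l' j a) x ^ d' j) = 0 := by
      refine sum_labels (fun a => match a with
        | none => some (lam j)
        | some a => if lin (l' j a) y ≠ 0 then some (s (l' j a)) else none) _ ?_
      intro b B hB
      cases b with
      | none =>
        refine Finset.sum_eq_zero fun a ha => ?_
        have h1 := (hB a).1 ha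
        cases a with
        | none => simp at h1
        | some a =>
          simp only at h1 ⊢
          by_cases h2 : lin (l' j a) y ≠ 0
          · simp [h2] at h1
          · push Not at h2
            rw [hx.1 _ h2, zero_pow (hd' j).ne', mul_zero]
      | some b =>
        set B' : Finset (Fin (r' j)) := Finset.univ.filter fun a => some a ∈ B with hB'
        have hB1 : ∀ a, a ∈ B' ↔ lin (l' j a) y ≠ 0 ∧ s (l' j a) = b := by
          intro a
          rw [hB', Finset.mem_filter, hB]
          by_cases h2 : lin (l' j a) y ≠ 0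
          · simp [h2]
          · simp [h2]
        have hsplit : ∑ a ∈ B, (match a with
            | none => -c
            | some a => algebraMap k M (w' j a) * lin (l' j a) x ^ d' j) =
            (if (none : Option (Fin (r' j))) ∈ B then -c else 0) +
              ∑ a ∈ B', algebraMap k M (w' j a) * lin (l' j a) x ^ d' j := by
          have h5 : ∑ a ∈ B, (match a with
              | none => -c
              | some a => algebraMap k M (w' j a) * lin (l' j a) x ^ d' j) =
              ∑ a : Option (Fin (r' j)), if a ∈ B then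
                (match a with
                | none => -c
                | some a => algebraMap k M (w' j a) * lin (l' j a) x ^ d' j) else 0 := by
            rw [Finset.sum_ite_mem, Finset.univ_inter]
          rw [h5, Fintype.sum_option]
          congr 1
          rw [hB', Finset.sum_filter]
        rw [hsplit]
        by_cases hbl : b = lam j
        · subst hbl
          have h6 : (none : Option (Fin (r' j))) ∈ B := (hB none).2 rfl
          rw [if_pos h6, key (w' j) (l' j) (hd' j) x hx _ hg _ B' hB1 _ hb (hbq' j), if_pos rfl]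
          ring
        · have h6 : (none : Option (Fin (r' j))) ∉ B := by
            intro h7
            have h8 := (hB none).1 h7
            simp only [Option.some.injEq] at h8
            exact hbl h8.symm
          rw [if_neg h6, zero_add]
          by_cases hne : B'.Nonempty
          · obtain ⟨a0, ha0⟩ := hne
            obtain ⟨h1, h2⟩ := (hB1 a0).1 ha0
            rw [key (w' j) (l' j) (hd' j) x hx _ hg _ B' hB1 _ h1 h2, if_neg hbl, map_zero,
              mul_zero]
          · rw [Finset.not_nonempty_iff_eq_empty] at hne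
            rw [hne, Finset.sum_empty]
    rw [Fintype.sum_option] at h4
    linear_combination h4

end Pool.Agent.W603.CZ
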