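import Pool.Agent.W603.CZ.Blocks
import Pool.Agent.W603.CZ.GoodW

/-!
Linear spaces through a point over an ultraproduct of function fields.
-/

set_option autoImplicit false

open FF Filter MvPolynomial Pool.Agent.W603.LV Pool.Agent.W603.PV Pool.Agent.W602.GT
  Pool.Agent.W603.GY Pool.Agent.W603.GX Pool.Agent.W603.GW Pool.Agent.W603.GR

namespace Pool.Agent.W603.CZ

variable {I : Type} {𝒰 : Ultrafilter I} {k F : Type} [Field k] [Field F] {L : I → Type}
  [∀ i, Field (L i)] [∀ i, Algebra k (L i)] [∀ i, Algebra F (L i)]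

omit [Field k] [∀ i, Algebra k (L i)] in
theorem um_lin {n : ℕ} (l : Fin (n + 1) → F) (f : Fin (n + 1) → ∀ i, L i) :
    um 𝒰 (fun i => Pool.Agent.W602.GT.lin l (fun t => f t i)) =
      Pool.Agent.W602.GT.lin l (fun t => um 𝒰 (f t)) := by
  unfold Pool.Agent.W602.GT.lin
  rw [um_sum]
  refine Finset.sum_congr rfl fun t _ => ?_
  rw [um_mul, um_alg]

omit [Field k] [∀ i, Algebra k (L i)] in
theorem um_val {n : ℕ} (H : MvPolynomial (Fin (n + 1)) F) (f : Fin (n + 1) → ∀ i, L i) :
    um 𝒰 (fun i => val (fun t => f t i) H) = val (fun t => um 𝒰 (f t)) H :=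
  um_aeval 𝒰 f H

variable [IsAlgClosed k] [CharZero k] [∀ i, IsFF k (L i)] {n : ℕ} {ι κ : Type}

/-- **Linear spaces.** -/
theorem good_w (S : ∀ i, Finset (Place k (L i))) {χ : I → ℤ}
    {E : IntermediateField F (UL 𝒰 L)} (hE : IsSmall 𝒰 k χ E) {B0 : ℕ}
    (hS : ∀ᶠ i in (𝒰 : Filter I), max (canDeg k (L i) + (S i).card) 0 ≤ B0 * χ i)
    {Fs : ι → MvPolynomial (Fin (n + 1)) F} {Q : κ → MvPolynomial (Fin (n + 1)) F}
    {r d : ι → ℕ} (w : ∀ i, Fin (r i) → F) (hw : ∀ i a, w i a ≠ 0)
    (l : ∀ i, Fin (r i) → Fin (n + 1) → F) (hd : ∀ i, 0 < d i)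
    (hrd : ∀ i, (r i - 1) ^ 2 ≤ d i)
    (hF : ∀ i, Fs i = ∑ a, C (w i a) * (∑ t, C (l i a t) * X t) ^ d i)
    {r' d' : κ → ℕ} (w' : ∀ j, Fin (r' j) → F) (hw' : ∀ j a, w' j a ≠ 0)
    (l' : ∀ j, Fin (r' j) → Fin (n + 1) → F) (hd' : ∀ j, 0 < d' j)
    (hrd' : ∀ j, r' j ^ 2 ≤ d' j)
    (hQ : ∀ j, Q j = ∑ a, C (w' j a) * (∑ t, C (l' j a t) * X t) ^ d' j)
    (f : Fin (n + 1) → ∀ i, L i) (hFf : ∀ e, val (fun t => um 𝒰 (f t)) (Fs e) = 0)
    (hQf : ∀ j, val (fun t => um 𝒰 (f t)) (Q j) ≠ 0)
    (hQS : ∀ j i, ∀ P ∉ S i, (d' j : ℤ) ∣ P.ord (val (fun t => f t i) (Q j))) :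
    ∃ lq : κ → Fin (n + 1) → F,
      Good Fs Q (fun t => um 𝒰 (f t)) (PrC E (fun t => um 𝒰 (f t))) lq ∧
      ∀ j, Pool.Agent.W602.GT.lin (lq j) (fun t => um 𝒰 (f t)) ^ (Q j).totalDegree /
        val (fun t => um 𝒰 (f t)) (Q j) ∈ E := by
  classical
  obtain ⟨y, hy⟩ : ∃ y : Fin (n + 1) → UL 𝒰 L, y = fun t => um 𝒰 (f t) := ⟨_, rfl⟩
  rw [← hy] at hFf hQf ⊢
  have hW : ∀ (z : UL 𝒰 L) (d : ℕ), 0 < d → z ^ d ∈ E → z ∈ E := fun z d hd0 h =>
    hE.root z d hd0 h
  have hQne : ∀ j, Q j ≠ 0 := by
    intro j h0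
    apply hQf j
    rw [h0]
    unfold Pool.Agent.W602.GT.val
    rw [map_zero]
  have hdeg : ∀ j, (Q j).totalDegree = d' j := by
    intro j
    have h1 := hom_powW (d := d' j) (w' j) (l' j)
    rw [← hQ j] at h1
    exact h1.totalDegree (hQne j)
  have hvF : ∀ e, val y (Fs e) =
      ∑ a, algebraMap F (UL 𝒰 L) (w e a) * Pool.Agent.W602.GT.lin (l e a) y ^ d e := fun e => by
    conv_lhs => rw [hF e]
    exact val_powW _ _ _
  have hvQ : ∀ j, val y (Q j) =
      ∑ a, algebraMap F (UL 𝒰 L) (w' j a) * Pool.Agent.W602.GT.lin (l' j a) y ^ d' j := fun j => by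
    conv_lhs => rw [hQ j]
    exact val_powW _ _ _
  have hul : ∀ (c : F) (m : Fin (n + 1) → F) (D : ℕ),
      um 𝒰 (fun i => algebraMap F (L i) c * Pool.Agent.W602.GT.lin m (fun t => f t i) ^ D) =
      algebraMap F (UL 𝒰 L) c * Pool.Agent.W602.GT.lin m y ^ D := by
    intro c m D
    rw [um_mul, um_pow, um_lin, um_alg, hy]
  have huQ : ∀ j, um 𝒰 (fun i => -val (fun t => f t i) (Q j)) = -val y (Q j) := by
    intro j
    rw [um_neg, um_val, hy]
  have halg : ∀ c : F, c ≠ 0 → algebraMap F (UL 𝒰 L) c ≠ 0 := fun c hc => by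
    rw [Ne, map_eq_zero]
    exact hc
  -- ratios
  have hratio : ∀ (c c' : F) (m m' : Fin (n + 1) → F) (D : ℕ), c ≠ 0 → c' ≠ 0 → 0 < D →
      (algebraMap F (UL 𝒰 L) c * Pool.Agent.W602.GT.lin m y ^ D /
        (algebraMap F (UL 𝒰 L) c' * Pool.Agent.W602.GT.lin m' y ^ D) ∈ E ↔
        Pool.Agent.W602.GT.lin m y / Pool.Agent.W602.GT.lin m' y ∈ E) := by
    intro c c' m m' D hc hc' hD
    have h1 : algebraMap F (UL 𝒰 L) c * Pool.Agent.W602.GT.lin m y ^ D /
        (algebraMap F (UL 𝒰 L) c' * Pool.Agent.W602.GT.lin m' y ^ D) =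
        algebraMap F (UL 𝒰 L) (c / c') *
          (Pool.Agent.W602.GT.lin m y / Pool.Agent.W602.GT.lin m' y) ^ D := by
      rw [mul_div_mul_comm, map_div₀, div_pow]
    rw [h1]
    constructor
    · intro h
      apply hW _ D hD
      have h2 : (Pool.Agent.W602.GT.lin m y / Pool.Agent.W602.GT.lin m' y) ^ D =
          algebraMap F (UL 𝒰 L) (c' / c) * (algebraMap F (UL 𝒰 L) (c / c') *
            (Pool.Agent.W602.GT.lin m y / Pool.Agent.W602.GT.lin m' y) ^ D) := by
        rw [← mul_assoc, ← map_mul]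
        have h3 : c' / c * (c / c') = 1 := by field_simp
        rw [h3, map_one, one_mul]
      rw [h2]
      exact mul_mem (E.algebraMap_mem _) h
    · intro h
      exact mul_mem (E.algebraMap_mem _) (pow_mem h _)
  -- the labels
  let s : (Fin (n + 1) → F) → Set (UL 𝒰 L) := fun m =>
    {z | z ≠ 0 ∧ Pool.Agent.W602.GT.lin m y / z ∈ E}
  have hs : ∀ m m', Pool.Agent.W602.GT.lin m y ≠ 0 → Pool.Agent.W602.GT.lin m' y ≠ 0 →
      (s m = s m' ↔ Pool.Agent.W602.GT.lin m y / Pool.Agent.W602.GT.lin m' y ∈ E) := by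
    intro m m' hm hm'
    constructor
    · intro h
      have h1 : Pool.Agent.W602.GT.lin m' y ∈ s m' := ⟨hm', mdiv_self hm'⟩
      rw [← h] at h1
      exact h1.2
    · intro h
      ext z
      constructor
      · rintro ⟨h1, h2⟩
        exact ⟨h1, mdiv_trans hm (mdiv_symm h) h2⟩
      · rintro ⟨h1, h2⟩
        exact ⟨h1, mdiv_trans hm' h h2⟩
  -- the boundary
  have hQb : ∀ j (x0 : Option (Fin (r' j))) (A : Finset (Option (Fin (r' j)))),
      (∀ a, x0 = some a → Pool.Agent.W602.GT.lin (l' j a) y ≠ 0) →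
      (∀ x, x ∈ A ↔ (x.elim (-val y (Q j)) fun a =>
        algebraMap F (UL 𝒰 L) (w' j a) * Pool.Agent.W602.GT.lin (l' j a) y ^ d' j) ≠ 0 ∧
        (x0.elim (-val y (Q j)) fun a =>
          algebraMap F (UL 𝒰 L) (w' j a) * Pool.Agent.W602.GT.lin (l' j a) y ^ d' j) /
          (x.elim (-val y (Q j)) fun a =>
            algebraMap F (UL 𝒰 L) (w' j a) * Pool.Agent.W602.GT.lin (l' j a) y ^ d' j) ∈ E) →
      ∑ x ∈ A, (x.elim (-val y (Q j)) fun a =>
        algebraMap F (UL 𝒰 L) (w' j a) * Pool.Agent.W602.GT.lin (l' j a) y ^ d' j) = 0 := by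
    intro j x0 A hx0 hA
    obtain ⟨S', B1, hS', hB1⟩ := more_places S hE hS
      (fun (a : Fin (r' j)) i => algebraMap F (L i) (w' j a))
      (fun a => by rw [um_alg]; exact E.algebraMap_mem _)
    let g : Option (Fin (r' j)) → ∀ i, L i := fun x => x.elim
      (fun i => -val (fun t => f t i) (Q j)) fun a => fun i =>
        algebraMap F (L i) (w' j a) * Pool.Agent.W602.GT.lin (l' j a) (fun t => f t i) ^ d' j
    have hg : ∀ x, um 𝒰 (g x) = (x.elim (-val y (Q j)) fun a =>
        algebraMap F (UL 𝒰 L) (w' j a) * Pool.Agent.W602.GT.lin (l' j a) y ^ d' j) := by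
      rintro (_ | a)
      · exact huQ j
      · exact hul _ _ _
    have hord : ∀ i, ∀ P ∉ S' i, ∀ x, g x i ≠ 0 → (d' j : ℤ) ∣ P.ord (g x i) := by
      intro i P hP x hx
      obtain ⟨h1, h2⟩ := hS' i P hP
      rcases x with _ | a
      · change (d' j : ℤ) ∣ P.ord (-val (fun t => f t i) (Q j))
        rw [P.ord_neg]
        exact hQS j i P h1
      · change (d' j : ℤ) ∣ P.ord (algebraMap F (L i) (w' j a) *
          Pool.Agent.W602.GT.lin (l' j a) (fun t => f t i) ^ d' j)
        have hx' : algebraMap F (L i) (w' j a) *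
          Pool.Agent.W602.GT.lin (l' j a) (fun t => f t i) ^ d' j ≠ 0 := hx
        rw [P.ord_mul (left_ne_zero_of_mul hx') (right_ne_zero_of_mul hx'), h2 a, zero_add,
          P.ord_pow]
        exact ⟨_, rfl⟩
    have h1 := ublocks0 S' hE hB1 (J := Option (Fin (r' j))) (s := r' j + 1)
      (N := d' j) (by rw [Fintype.card_option, Fintype.card_fin]) (hd' j)
      (by rw [Nat.add_sub_cancel]; exact hrd' j) g (by
        rw [Fintype.sum_option, hg none]
        simp only [hg, Option.elim_none, Option.elim_some]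
        rw [← hvQ j]
        ring) (Eventually.of_forall fun i P hP a b ha hb =>
          dvd_sub (hord i P hP a ha) (hord i P hP b hb)) x0 (by
        rw [hg]
        rcases x0 with _ | a
        · exact neg_ne_zero.2 (hQf j)
        · exact mul_ne_zero (halg _ (hw' j a)) (pow_ne_zero _ (hx0 a rfl))) A
      (fun x => by rw [hA, hg, hg])
    rw [← h1]
    exact Finset.sum_congr rfl fun x _ => (hg x).symm
  -- one term against the form
  have hone : ∀ j (b : Fin (r' j)), (algebraMap F (UL 𝒰 L) (w' j b) *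
      Pool.Agent.W602.GT.lin (l' j b) y ^ d' j / val y (Q j) ∈ E ↔
        Pool.Agent.W602.GT.lin (l' j b) y ^ d' j / val y (Q j) ∈ E) := by
    intro j b
    constructor
    · intro h
      have h1 : Pool.Agent.W602.GT.lin (l' j b) y ^ d' j / val y (Q j) =
          algebraMap F (UL 𝒰 L) (w' j b)⁻¹ * (algebraMap F (UL 𝒰 L) (w' j b) *
            Pool.Agent.W602.GT.lin (l' j b) y ^ d' j / val y (Q j)) := by
        rw [map_inv₀]
        have := halg _ (hw' j b)
        field_simp
      rw [h1]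
      exact mul_mem (E.algebraMap_mem _) h
    · intro h
      rw [mul_div_assoc]
      exact mul_mem (E.algebraMap_mem _) h
  have hbq : ∀ j, ∃ b : Fin (r' j), Pool.Agent.W602.GT.lin (l' j b) y ≠ 0 ∧
      algebraMap F (UL 𝒰 L) (w' j b) * Pool.Agent.W602.GT.lin (l' j b) y ^ d' j /
        val y (Q j) ∈ E := by
    intro j
    by_contra hcon
    push Not at hcon
    have h1 := hQb j none {none} (fun a h => by cases h) (by
      rintro (_ | a)
      · simp only [Finset.mem_singleton, Option.elim_none, true_iff]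
        exact ⟨neg_ne_zero.2 (hQf j), mdiv_self (neg_ne_zero.2 (hQf j))⟩
      · simp only [Finset.mem_singleton, Option.elim_none, Option.elim_some, reduceCtorEq,
          false_iff, not_and]
        intro h2 h3
        have h4 : Pool.Agent.W602.GT.lin (l' j a) y ≠ 0 := fun h0 => h2 (by
          rw [h0, zero_pow (hd' j).ne', mul_zero])
        exact hcon a h4 (mdiv_neg (mdiv_symm h3)))
    rw [Finset.sum_singleton, Option.elim_none, neg_eq_zero] at h1
    exact hQf j h1
  choose bq hbq hbqE using hbq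
  have hbqne : ∀ j, algebraMap F (UL 𝒰 L) (w' j (bq j)) *
      Pool.Agent.W602.GT.lin (l' j (bq j)) y ^ d' j ≠ 0 := fun j =>
    mul_ne_zero (halg _ (hw' _ _)) (pow_ne_zero _ (hbq j))
  obtain ⟨lq, hG, hlq⟩ := good_ofW (y := y) w l hd hF w' l' hd' hQ hQf s
    (fun j => s (l' j (bq j)))
    (by
      intro e b B hB
      by_cases hne : B.Nonempty
      · obtain ⟨a0, ha0⟩ := hne
        obtain ⟨h1, h2⟩ := (hB a0).1 ha0
        obtain ⟨S', B1, hS', hB1⟩ := more_places S hE hS
          (fun (a : Fin (r e)) i => algebraMap F (L i) (w e a))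
          (fun a => by rw [um_alg]; exact E.algebraMap_mem _)
        have h3 := ublocks0 S' hE hB1 (J := Fin (r e)) (s := r e) (N := d e)
          (by rw [Fintype.card_fin]) (hd e) (hrd e)
          (fun a => fun i => algebraMap F (L i) (w e a) *
            Pool.Agent.W602.GT.lin (l e a) (fun t => f t i) ^ d e) (by
            simp only [hul]
            rw [← hvF]
            exact hFf e) (Eventually.of_forall fun i P hP a b ha hb => by
              obtain ⟨-, h5⟩ := hS' i P hP
              rw [P.ord_mul (left_ne_zero_of_mul ha) (right_ne_zero_of_mul ha),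
                P.ord_mul (left_ne_zero_of_mul hb) (right_ne_zero_of_mul hb), h5, h5, zero_add,
                zero_add, P.ord_pow, P.ord_pow]
              exact dvd_sub ⟨_, rfl⟩ ⟨_, rfl⟩) a0 (by
            rw [hul]
            exact mul_ne_zero (halg _ (hw _ _)) (pow_ne_zero _ h1)) B (by
            intro a
            rw [hul, hul, hB]
            constructor
            · rintro ⟨h4, h5⟩
              refine ⟨mul_ne_zero (halg _ (hw _ _)) (pow_ne_zero _ h4), ?_⟩
              rw [hratio _ _ _ _ _ (hw _ _) (hw _ _) (hd e), ← hs _ _ h1 h4, h5, h2]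
            · rintro ⟨h4, h5⟩
              have h6 : Pool.Agent.W602.GT.lin (l e a) y ≠ 0 := fun h0 => h4 (by
                rw [h0, zero_pow (hd e).ne', mul_zero])
              refine ⟨h6, ?_⟩
              rw [hratio _ _ _ _ _ (hw _ _) (hw _ _) (hd e), ← hs _ _ h1 h6] at h5
              rw [← h5, h2])
        simp only [hul] at h3
        exact h3
      · rw [Finset.not_nonempty_iff_eq_empty] at hne
        rw [hne, Finset.sum_empty])
    (by
      intro j b B hb hB
      by_cases hne : B.Nonempty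
      · obtain ⟨a0, ha0⟩ := hne
        obtain ⟨h1, h2⟩ := (hB a0).1 ha0
        have h3 := hQb j (some a0) (B.map Function.Embedding.some)
          (fun a h => by
            rw [Option.some.injEq] at h
            rw [← h]
            exact h1) (by
          rintro (_ | a)
          · simp only [Finset.mem_map, Function.Embedding.some_apply, reduceCtorEq, and_false,
              exists_false, Option.elim_none, Option.elim_some, false_iff, not_and]
            intro _ h4
            apply hb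
            rw [← h2, hs _ _ h1 (hbq j), ← hratio _ _ _ _ _ (hw' j a0) (hw' j (bq j)) (hd' j)]
            exact mdiv_trans (hQf j) (mdiv_neg h4) (mdiv_symm (hbqE j))
          · simp only [Finset.mem_map, Function.Embedding.some_apply, Option.some.injEq,
              exists_eq_right, Option.elim_some]
            rw [hB]
            constructor
            · rintro ⟨h4, h5⟩
              refine ⟨mul_ne_zero (halg _ (hw' _ _)) (pow_ne_zero _ h4), ?_⟩
              rw [hratio _ _ _ _ _ (hw' _ _) (hw' _ _) (hd' j), ← hs _ _ h1 h4, h5, h2]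
            · rintro ⟨h4, h5⟩
              have h6 : Pool.Agent.W602.GT.lin (l' j a) y ≠ 0 := fun h0 => h4 (by
                rw [h0, zero_pow (hd' j).ne', mul_zero])
              refine ⟨h6, ?_⟩
              rw [hratio _ _ _ _ _ (hw' _ _) (hw' _ _) (hd' j), ← hs _ _ h1 h6] at h5
              rw [← h5, h2])
        rw [Finset.sum_map] at h3
        exact h3
      · rw [Finset.not_nonempty_iff_eq_empty] at hne
        rw [hne, Finset.sum_empty])
    (by
      intro j B hB
      have h3 := hQb j none (insert none (B.map Function.Embedding.some))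
        (fun a h => by cases h) (by
        rintro (_ | a)
        · simp only [Finset.mem_insert, true_or, Option.elim_none, true_iff]
          exact ⟨neg_ne_zero.2 (hQf j), mdiv_self (neg_ne_zero.2 (hQf j))⟩
        · simp only [Finset.mem_insert, Finset.mem_map, Function.Embedding.some_apply,
            Option.some.injEq, exists_eq_right, Option.elim_some, Option.elim_none, reduceCtorEq,
            false_or]
          rw [hB]
          constructor
          · rintro ⟨h4, h5⟩
            refine ⟨mul_ne_zero (halg _ (hw' _ _)) (pow_ne_zero _ h4), ?_⟩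
            have h6 : algebraMap F (UL 𝒰 L) (w' j (bq j)) *
                Pool.Agent.W602.GT.lin (l' j (bq j)) y ^ d' j /
                (algebraMap F (UL 𝒰 L) (w' j a) *
                  Pool.Agent.W602.GT.lin (l' j a) y ^ d' j) ∈ E := by
              rw [hratio _ _ _ _ _ (hw' _ _) (hw' _ _) (hd' j), ← hs _ _ (hbq j) h4, h5]
            have h7 := mdiv_trans (hbqne j) (mdiv_symm (hbqE j)) h6
            rw [neg_div]
            exact neg_mem h7
          · rintro ⟨h4, h5⟩
            have h6 : Pool.Agent.W602.GT.lin (l' j a) y ≠ 0 := fun h0 => h4 (by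
              rw [h0, zero_pow (hd' j).ne', mul_zero])
            refine ⟨h6, ?_⟩
            rw [hs _ _ h6 (hbq j), ← hratio _ _ _ _ _ (hw' j a) (hw' j (bq j)) (hd' j)]
            rw [neg_div, neg_mem_iff] at h5
            exact mdiv_trans (hQf j) (mdiv_symm h5) (mdiv_symm (hbqE j)))
      rw [Finset.sum_insert (by simp), Finset.sum_map] at h3
      simp only [Option.elim_none, Function.Embedding.some_apply, Option.elim_some] at h3
      linear_combination h3)
    (PrC E y) (fun p hp => ⟨hp.1, hp.2.1⟩)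
    (fun m m' hm hm' h => ⟨hm, hm', (hs m m' hm hm').1 h⟩)
  refine ⟨lq, hG, fun j => ?_⟩
  obtain ⟨h1, -⟩ := hlq j
  rw [hdeg]
  have h2 : Pool.Agent.W602.GT.lin (lq j) y / Pool.Agent.W602.GT.lin (l' j (bq j)) y ∈ E :=
    (hs _ _ (hG.lq_ne j) (hbq j)).1 h1
  have h3 := (hone j (bq j)).1 (hbqE j)
  have h4 : Pool.Agent.W602.GT.lin (lq j) y ^ d' j / Pool.Agent.W602.GT.lin (l' j (bq j)) y ^ d' j
      ∈ E := by
    rw [← div_pow]
    exact pow_mem h2 _
  exact mdiv_trans (pow_ne_zero _ (hbq j)) h4 h3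

end Pool.Agent.W603.CZ
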